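import Mathlib
import Pool.Agent.H80.HilbDefs
import Pool.Agent.H80.HilbDefs2
import Pool.Agent.H80.HilbVC3

open Pool.Agent.H80.Hilb

theorem Pool.Agent.Results.MP_490634_ag.UpperRange.result (k : Type) [Field k] [IsAlgClosed k]
    [CharZero k] (n r : ℕ) (hn : 4 ≤ n) (h1 : n ^ 2 < 3 * r + 1) (h2 : r ≤ (n + 1).choose 2) :
    closure (VC k n (1 + n + r)) ∉
      irreducibleComponents (Pts k (MvPolynomial (Fin n) k) (1 + n + r)) ∧
    ((1 + n + r) * (r + n) < r * (n + 1).choose 2 →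
      ¬ VC k n (1 + n + r) ⊆ Smoothable k n (1 + n + r)) :=
  upper_range k n r (Nat.cast_ne_zero.2 (by omega)) hn h1 h2
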